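import Pool.Agent.helper62.MS.SpecA
import Pool.Agent.helper29.RS.FL1

/-!
# Row `ms:EQ1` (project MS, MP_07c750_an): change of `α`
-/

set_option autoImplicit false

open scoped MatrixGroups ContDiff Topology UpperHalfPlane ComplexConjugate
open UpperHalfPlane MeasureTheory Filter Set

namespace Pool.Agent.MS

open Pool.Agent.RS

theorem EQ1_int (w : ℝ) (a : ℝ → ℝ) (ha : SB w a) : Integrable a := by
  apply Continuous.integrable_of_hasCompactSupport ha.1.continuous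
  apply HasCompactSupport.intro (isCompact_Icc (a := -w) (b := w))
  intro x hx
  by_contra h
  exact hx (abs_le.1 (ha.2 x h))

theorem EQ1_hF (a : ℝ → ℝ) (h : ∫ x, a x = 0) : hF a 0 = 0 := by
  unfold hF
  have h1 : ∀ τ : ℝ, (a τ : ℂ) * Complex.exp (-((0 * τ : ℝ) : ℂ) * Complex.I) = ((a τ : ℝ) : ℂ) := by
    intro τ
    simp
  simp only [h1]
  rw [integral_complex_ofReal, h, Complex.ofReal_zero]

theorem EQ1_Wf (hFL0 : FL0_stmt) (r : ℝ) (β α1 α2 : ℝ → ℝ) (h1 : TB (1 / 4) (pc β α1)) (h2 : TB (1 / 4) (pc β α2))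
    (φ : ℍ → ℂ) (hφ : Continuous φ) (g : SL(2, ℝ)) :
    pf β α1 r φ g - pf β α2 r φ g = Wf (pk r (pc β (fun x => α1 x - α2 x))) φ g := by
  have t1 := FL1_tst hFL0 r (pc β α1) h1
  have t2 := FL1_tst hFL0 r (pc β α2) h2
  have hφg : Continuous (fun z : ℍ => φ (g • z)) := hφ.comp (continuous_const_smul g)
  have i1 : Integrable (fun z : ℍ => pk r (pc β α1) z * φ (g • z)) := (t1.1.mul hφg).integrable_of_hasCompactSupport t1.2.mul_right
  have i2 : Integrable (fun z : ℍ => pk r (pc β α2) z * φ (g • z)) := (t2.1.mul hφg).integrable_of_hasCompactSupport t2.2.mul_right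
  unfold pf Wf
  rw [← integral_sub i1 i2]
  congr 1
  funext z
  unfold pk pc
  push_cast
  ring

/-- **EQ1**. -/
theorem EQ1_proof (hBK5 : BK5_stmt) (hGR2 : GR2_stmt) (hCV1 : CV1_stmt) (hFL0 : FL0_stmt) : EQ1_stmt := by
  intro Γ F β α1 α2 hΓ hFd hβ h1 h2 hint η hη
  have hα : SB (1 / 4) (fun x => α1 x - α2 x) := by
    refine ⟨h1.1.sub h2.1, fun x hx => ?_⟩
    by_cases h : α1 x = 0
    · apply h2.2 x
      intro h'
      apply hx
      simp only []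
      rw [h, h', sub_zero]
    · exact h1.2 x h
  have hc1 : TB (1 / 4) (pc β α1) := (hCV1.2.2 (1 / 4) α1 β h1 hβ).1
  have hc2 : TB (1 / 4) (pc β α2) := (hCV1.2.2 (1 / 4) α2 β h2 hβ).1
  obtain ⟨hcT, hcc, -, -⟩ := hCV1.2.2 (1 / 4) (fun x => α1 x - α2 x) β hα hβ
  have hi0 : ∫ x, (α1 x - α2 x) = 0 := by
    rw [integral_sub (EQ1_int _ α1 h1) (EQ1_int _ α2 h2), hint, sub_self]
  obtain ⟨r0, hr0, hr⟩ := hBK5 (fun x => α1 x - α2 x) β hα hβ η 1 hη
  refine ⟨r0, hr0, fun r φ hr1 hφ => ?_⟩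
  have hr' := hr r r hr1 (by simp)
  rw [sub_self, EQ1_hF _ hi0] at hr'
  have hb : r * bk (pr β (fun x => α1 x - α2 x)) r r ≤ η := by
    have h3 := (abs_le.1 hr').2
    simpa using h3
  have hG := (hGR2 Γ F hΓ hFd r φ hφ).2 (pc β (fun x => α1 x - α2 x)) r hcT
  have hφc : Continuous φ := ((QU.A_CA1 ℂ).1 _).1 ((QU.A_CA1 ℂ).2.1 _ 0 2 (by norm_num) hφ.1)
  have heq : iR F (fun g => ‖pf β α1 r φ g - pf β α2 r φ g‖ ^ 2) = qn F (pc β (fun x => α1 x - α2 x)) r φ := by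
    unfold qn
    congr 1
    funext g
    rw [EQ1_Wf hFL0 r β α1 α2 hc1 hc2 φ hφc g]
  have hnn : 0 ≤ nn F φ := integral_nonneg fun z => sq_nonneg _
  rw [heq, hG, hcc]
  nlinarith

end Pool.Agent.MS
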