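import Pool.Agent.helper43.MS.Defs

/-!
# Module C3: the domain of the example is pointwise 3-convex
-/

open Bundle Manifold MeasureTheory Set Filter Topology
open scoped ContDiff ENNReal

namespace Pool.Agent.helper43.MS

set_option backward.isDefEq.respectTransparency false in
/-- the metric of `ℝ^n` in its charts -/
theorem metricN_E {n : ℕ} (q : E n) : metricN (n := n) (N := E n) q = fun _ => 1 := by
  funext y a b
  unfold metricN
  have h : mfderiv 𝓘(ℝ, E n) 𝓘(ℝ, E n) (chartAt (E n) q).symm y = ContinuousLinearMap.id ℝ (E n) := by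
    simp only [chartAt_self_eq, OpenPartialHomeomorph.refl_symm, mfderiv_eq_fderiv]
    exact fderiv_id
  rw [h]
  change inner ℝ (bv a : E n) (bv b : E n) = (1 : Matrix (Fin n) (Fin n) ℝ) a b
  rw [EuclideanSpace.inner_single_left, Matrix.one_apply]
  simp

theorem pd_const {k : ℕ} (i : Fin k) (c : ℝ) (x : E k) : pd i (fun _ => c) x = 0 := by
  unfold pd
  simp

theorem christoffel_const {n : ℕ} (G : Matrix (Fin n) (Fin n) ℝ) (y : E n) (c a b : Fin n) :
    christoffel (fun _ => G) y c a b = 0 := by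
  unfold christoffel
  simp [pd_const]

/-- the Hessian for a constant metric -/
theorem hess_const {n : ℕ} (G : Matrix (Fin n) (Fin n) ℝ) (f : E n → ℝ) (y v : E n) :
    hess (fun _ => G) f y v = ∑ a, ∑ b, pd a (pd b f) y * v a * v b := by
  unfold hess
  simp [christoffel_const]

/-! ### Powers of the positive part -/

theorem hasDerivAt_maxpow (n : ℕ) (t : ℝ) :
    HasDerivAt (fun s : ℝ => (max s 0) ^ (n + 2)) ((n + 2 : ℕ) * (max t 0) ^ (n + 1)) t := by
  rcases lt_trichotomy t 0 with h | h | h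
  · have h1 : (fun s : ℝ => (max s 0) ^ (n + 2)) =ᶠ[𝓝 t] fun _ => 0 := by
      filter_upwards [gt_mem_nhds h] with s hs
      rw [max_eq_right hs.le]
      simp
    rw [max_eq_right h.le]
    simpa using (hasDerivAt_const t (0 : ℝ)).congr_of_eventuallyEq h1
  · subst h
    have h1 : (fun s : ℝ => (max s 0) ^ (n + 2)) =O[𝓝 0] fun s => ‖s - 0‖ ^ (n + 2) := by
      refine Asymptotics.IsBigO.of_bound 1 (Eventually.of_forall fun s => ?_)
      rw [one_mul, norm_pow, norm_pow, norm_norm, sub_zero]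
      refine pow_le_pow_left₀ (norm_nonneg _) ?_ _
      rw [Real.norm_eq_abs, Real.norm_eq_abs]
      rcases le_total s 0 with h | h
      · rw [max_eq_right h]; simp
      · rw [max_eq_left h]
    have h2 := h1.hasFDerivAt (𝕜 := ℝ) (by omega)
    have h3 := h2.hasDerivAt
    simpa using h3
  · have h1 : (fun s : ℝ => (max s 0) ^ (n + 2)) =ᶠ[𝓝 t] fun s => s ^ (n + 2) := by
      filter_upwards [lt_mem_nhds h] with s hs
      rw [max_eq_left hs.le]
    rw [max_eq_left h.le]
    exact (hasDerivAt_pow (n + 2) t).congr_of_eventuallyEq h1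

theorem contDiff_maxpow (n : ℕ) : ContDiff ℝ n (fun s : ℝ => (max s 0) ^ (n + 1)) := by
  induction n with
  | zero =>
    simp only [CharP.cast_eq_zero]
    exact contDiff_zero.2 (by fun_prop)
  | succ n ih =>
    have h : ((n + 1 : ℕ) : WithTop ℕ∞) = (n : WithTop ℕ∞) + 1 := by push_cast; rfl
    rw [h, contDiff_succ_iff_deriv]
    refine ⟨fun t => (hasDerivAt_maxpow n t).differentiableAt, by simp, ?_⟩
    have h1 : deriv (fun s : ℝ => (max s 0) ^ (n + 1 + 1)) =
        fun t => ((n + 2 : ℕ) : ℝ) * (max t 0) ^ (n + 1) :=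
      funext fun t => (hasDerivAt_maxpow n t).deriv
    rw [h1]
    exact contDiff_const.mul ih

/-! ### The function `F0` -/

private noncomputable def c3S (y : E 5) : ℝ := y 0 ^ 2 + y 1 ^ 2 + y 3 ^ 2 + y 4 ^ 2

private theorem c3_F0_eq (y : E 5) :
    F0 y = -y 2 + (1 + c3S y / 32) * y 2 ^ 2 / 2 + (max (c3S y - 6) 0) ^ 3 := rfl

private theorem c3_S_contDiff {n : WithTop ℕ∞} : ContDiff ℝ n c3S := by
  unfold c3S
  fun_prop

private theorem c3_F0_contDiff : ContDiff ℝ 2 F0 := by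
  have h1 : ContDiff ℝ 2 (fun y : E 5 => -y 2 + (1 + c3S y / 32) * y 2 ^ 2 / 2) := by
    have : ContDiff ℝ 2 c3S := c3_S_contDiff
    fun_prop
  have h2 : ContDiff ℝ 2 (fun y : E 5 => (max (c3S y - 6) 0) ^ 3) := by
    have h3 : ContDiff ℝ 2 (fun y : E 5 => c3S y - 6) :=
      c3_S_contDiff.sub contDiff_const
    exact (contDiff_maxpow 2).comp h3
  exact h1.add h2

/-- partial derivatives are derivatives along lines -/
theorem pd_eq_of_hasDerivAt {k : ℕ} {f : E k → ℝ} {y : E k} (hf : DifferentiableAt ℝ f y)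
    (i : Fin k) {d : ℝ} (h : HasDerivAt (fun t : ℝ => f (y + t • bv i)) d 0) : pd i f y = d := by
  have h1 : HasLineDerivAt ℝ f (fderiv ℝ f y (bv i)) y (bv i) := hf.hasFDerivAt.hasLineDerivAt _
  exact HasDerivAt.unique h1 h

private theorem c3_line (y : E 5) (t : ℝ) (i b : Fin 5) :
    (y + t • bv b) i = y i + if i = b then t else 0 := by
  simp [bv]

private theorem c3_hd {f g : ℝ → ℝ} {a b x : ℝ} (h : HasDerivAt f a x) (hfg : f = g)
    (hab : a = b) : HasDerivAt g b x := by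
  subst hfg hab
  exact h

private theorem c3_S_line (y : E 5) (t : ℝ) (b : Fin 5) (hb : b ≠ 2) :
    c3S (y + t • bv b) = c3S y + 2 * t * y b + t ^ 2 := by
  unfold c3S
  simp only [c3_line]
  fin_cases b <;> simp at hb ⊢ <;> ring

private theorem c3_S_line2 (y : E 5) (t : ℝ) : c3S (y + t • bv 2) = c3S y := by
  unfold c3S
  simp only [c3_line]
  simp

private theorem c3_hS (y : E 5) (b : Fin 5) :
    HasDerivAt (fun t : ℝ => c3S y + 2 * t * y b + t ^ 2) (2 * y b) 0 := by
  have h1 : HasDerivAt (fun t : ℝ => c3S y + 2 * t * y b) (2 * y b) 0 := by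
    have := (((hasDerivAt_id (0 : ℝ)).const_mul 2).mul_const (y b)).const_add (c3S y)
    simpa using this
  have h2 : HasDerivAt (fun t : ℝ => t ^ 2) 0 0 := by
    simpa using hasDerivAt_pow 2 (0 : ℝ)
  exact c3_hd (h1.add h2) (by funext t; rfl) (by ring)

private theorem c3_hM (n : ℕ) (y : E 5) (b : Fin 5) :
    HasDerivAt (fun t : ℝ => (max (c3S y + 2 * t * y b + t ^ 2 - 6) 0) ^ (n + 2))
      ((n + 2 : ℕ) * (max (c3S y - 6) 0) ^ (n + 1) * (2 * y b)) 0 := by
  have h1 := (c3_hS y b).sub_const 6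
  have h2 := hasDerivAt_maxpow n (c3S y - 6)
  have h3 : c3S y - 6 = (fun t : ℝ => c3S y + 2 * t * y b + t ^ 2 - 6) 0 := by simp
  rw [h3] at h2
  have h4 := h2.comp 0 h1
  simpa [Function.comp_def] using h4

/-- first derivatives of `F0` -/
private noncomputable def c3G (b : Fin 5) (y : E 5) : ℝ :=
  if b = 2 then -1 + (1 + c3S y / 32) * y 2
  else y b * y 2 ^ 2 / 32 + 6 * (max (c3S y - 6) 0) ^ 2 * y b

private theorem c3_pd (b : Fin 5) : pd b F0 = c3G b := by
  funext y
  refine pd_eq_of_hasDerivAt (c3_F0_contDiff.differentiable (by norm_num) y) b ?_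
  unfold c3G
  split_ifs with hb
  · subst hb
    have h1 : (fun t : ℝ => F0 (y + t • bv 2)) =
        fun t => -(y 2 + t) + (1 + c3S y / 32) * (y 2 + t) ^ 2 / 2 + (max (c3S y - 6) 0) ^ 3 := by
      funext t
      rw [c3_F0_eq, c3_S_line2, c3_line]
      simp
    rw [h1]
    have h2 := (hasDerivAt_id (0 : ℝ)).const_add (y 2)
    have h3 := ((h2.neg.add (((h2.pow 2).const_mul (1 + c3S y / 32)).div_const 2)).add_const
      ((max (c3S y - 6) 0) ^ 3))
    exact c3_hd h3 (by funext t; simp) (by simp; ring)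
  · have h1 : (fun t : ℝ => F0 (y + t • bv b)) =
        fun t => -(y 2) + (1 + (c3S y + 2 * t * y b + t ^ 2) / 32) * (y 2) ^ 2 / 2 +
          (max (c3S y + 2 * t * y b + t ^ 2 - 6) 0) ^ 3 := by
      funext t
      rw [c3_F0_eq, c3_S_line _ _ _ hb, c3_line, if_neg (Ne.symm hb), add_zero]
    rw [h1]
    have h2 := (((((c3_hS y b).div_const 32).const_add 1).mul_const ((y 2) ^ 2)).div_const 2)
    have h3 := (h2.const_add (-(y 2))).add (c3_hM 1 y b)
    exact c3_hd h3 (by funext t; simp) (by push_cast; ring)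

private theorem c3_G_diff (b : Fin 5) : Differentiable ℝ (c3G b) := by
  unfold c3G
  have h1 : Differentiable ℝ c3S := (c3_S_contDiff (n := 1)).differentiable (by norm_num)
  have h2 : Differentiable ℝ (fun y : E 5 => (max (c3S y - 6) 0) ^ 2) := by
    intro y
    exact ((hasDerivAt_maxpow 0 (c3S y - 6)).differentiableAt).comp y ((h1 y).sub_const 6)
  split_ifs
  · fun_prop
  · fun_prop

/-- second derivatives of `F0` -/
private noncomputable def c3H (a b : Fin 5) (y : E 5) : ℝ :=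
  if b = 2 then (if a = 2 then 1 + c3S y / 32 else y a * y 2 / 16)
  else (if a = 2 then y b * y 2 / 16 else
    (if a = b then y 2 ^ 2 / 32 + 6 * (max (c3S y - 6) 0) ^ 2 else 0) +
      24 * (max (c3S y - 6) 0) * y a * y b)

private theorem c3_pd2 (a b : Fin 5) (y : E 5) : pd a (c3G b) y = c3H a b y := by
  refine pd_eq_of_hasDerivAt (c3_G_diff b y) a ?_
  unfold c3G c3H
  have h2 := (hasDerivAt_id (0 : ℝ)).const_add (y 2)
  by_cases hb : b = 2
  · simp only [if_pos hb]
    by_cases ha : a = 2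
    · subst ha
      rw [if_pos rfl]
      have h1 : (fun t : ℝ => -1 + (1 + c3S (y + t • bv 2) / 32) * (y + t • bv 2 : E 5) 2) =
          fun t => -1 + (1 + c3S y / 32) * (y 2 + t) := by
        funext t
        rw [c3_S_line2, c3_line]
        simp
      rw [h1]
      have h3 := (h2.const_mul (1 + c3S y / 32)).const_add (-1)
      exact c3_hd h3 (by funext t; simp) (by ring)
    · rw [if_neg ha]
      have h1 : (fun t : ℝ => -1 + (1 + c3S (y + t • bv a) / 32) * (y + t • bv a) 2) =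
          fun t => -1 + (1 + (c3S y + 2 * t * y a + t ^ 2) / 32) * y 2 := by
        funext t
        rw [c3_S_line _ _ _ ha, c3_line, if_neg (Ne.symm ha), add_zero]
      rw [h1]
      have h3 := (((((c3_hS y a).div_const 32).const_add 1).mul_const (y 2)).const_add (-1))
      exact c3_hd h3 (by funext t; simp) (by ring)
  · simp only [if_neg hb]
    by_cases ha : a = 2
    · subst ha
      rw [if_pos rfl]
      have h1 : (fun t : ℝ => (y + t • bv 2 : E 5) b * (y + t • bv 2 : E 5) 2 ^ 2 / 32 +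
          6 * (max (c3S (y + t • bv 2) - 6) 0) ^ 2 * (y + t • bv 2 : E 5) b) =
          fun t => y b * (y 2 + t) ^ 2 / 32 + 6 * (max (c3S y - 6) 0) ^ 2 * y b := by
        funext t
        rw [c3_S_line2, c3_line, c3_line, if_neg hb, if_pos rfl, add_zero]
      rw [h1]
      have h3 := (((h2.pow 2).const_mul (y b)).div_const 32).add_const
        (6 * (max (c3S y - 6) 0) ^ 2 * y b)
      exact c3_hd h3 (by funext t; simp) (by simp; ring)
    · rw [if_neg ha]
      have h1 : (fun t : ℝ => (y + t • bv a) b * (y + t • bv a) 2 ^ 2 / 32 +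
          6 * (max (c3S (y + t • bv a) - 6) 0) ^ 2 * (y + t • bv a) b) =
          fun t => (y b + if b = a then t else 0) * (y 2) ^ 2 / 32 +
            6 * (max (c3S y + 2 * t * y a + t ^ 2 - 6) 0) ^ 2 * (y b + if b = a then t else 0) := by
        funext t
        rw [c3_S_line _ _ _ ha, c3_line, c3_line, if_neg (Ne.symm ha), add_zero]
      rw [h1]
      have hM := c3_hM 0 y a
      have h4 : HasDerivAt (fun t : ℝ => y b + if b = a then t else 0)
          (if b = a then 1 else 0) 0 := by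
        by_cases h : b = a
        · simp only [if_pos h]
          exact (hasDerivAt_id (0 : ℝ)).const_add (y b)
        · simp only [if_neg h]
          exact hasDerivAt_const _ _
      have h3 := ((h4.mul_const ((y 2) ^ 2)).div_const 32).add ((hM.const_mul 6).mul h4)
      refine c3_hd h3 (by funext t; simp) ?_
      by_cases h : a = b
      · subst h
        simp
        ring
      · have h' : ¬ b = a := fun e => h e.symm
        simp only [if_neg h, if_neg h']
        push_cast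
        ring

/-- the Hessian of `F0` on `D0` is positive definite -/
private theorem c3_mem {y : E 5} (hy : y ∈ D0) : 0 < y 2 ∧ y 2 < 2 ∧ c3S y < 7 := by
  have h1 : F0 y < 0 := hy
  rw [c3_F0_eq] at h1
  have hS : 0 ≤ c3S y := by unfold c3S; positivity
  have hM : 0 ≤ max (c3S y - 6) 0 := le_max_right _ _
  have h3 : 0 ≤ (max (c3S y - 6) 0) ^ 3 := pow_nonneg hM _
  have h2 : 0 ≤ c3S y / 32 * y 2 ^ 2 / 2 := by positivity
  have h4 : -y 2 + y 2 ^ 2 / 2 + (max (c3S y - 6) 0) ^ 3 < 0 := by nlinarith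
  have h5 : 0 < y 2 := by nlinarith [sq_nonneg (y 2)]
  refine ⟨h5, by nlinarith, ?_⟩
  by_contra h6
  push Not at h6
  have h7 : 1 ≤ max (c3S y - 6) 0 := le_trans (by linarith) (le_max_left _ _)
  have h8 : 1 ≤ (max (c3S y - 6) 0) ^ 3 := one_le_pow₀ h7
  nlinarith [sq_nonneg (y 2 - 1)]

private theorem c3_pos {y : E 5} (hy : y ∈ D0) {v : E 5}
    (hv : ∑ a, v a * v a = 1) : 0 < ∑ a, ∑ b, c3H a b y * v a * v b := by
  obtain ⟨h1, h2, h3⟩ := c3_mem hy
  have hM : 0 ≤ max (c3S y - 6) 0 := le_max_right _ _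
  set M := max (c3S y - 6) 0 with hMdef
  set t := y 2 with ht
  set S := c3S y with hS
  have hSd : S = y 0 ^ 2 + y 1 ^ 2 + y 3 ^ 2 + y 4 ^ 2 := rfl
  have e1 : ∑ a, ∑ b, c3H a b y * v a * v b =
      (t ^ 2 / 32 + 6 * M ^ 2) * (v 0 ^ 2 + v 1 ^ 2 + v 3 ^ 2 + v 4 ^ 2) +
      24 * M * (y 0 * v 0 + y 1 * v 1 + y 3 * v 3 + y 4 * v 4) ^ 2 +
      t / 8 * (y 0 * v 0 + y 1 * v 1 + y 3 * v 3 + y 4 * v 4) * v 2 +
      (1 + S / 32) * v 2 ^ 2 := by
    simp only [Fin.sum_univ_five, c3H, ← hMdef, ← ht, ← hS]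
    simp
    ring
  rw [e1]
  rw [Fin.sum_univ_five] at hv
  set X := v 0 ^ 2 + v 1 ^ 2 + v 3 ^ 2 + v 4 ^ 2 with hX
  set p := y 0 * v 0 + y 1 * v 1 + y 3 * v 3 + y 4 * v 4 with hp
  have hX0 : 0 ≤ X := by positivity
  have hcs : p ^ 2 ≤ S * X := by
    rw [hp, hSd, hX]
    nlinarith [sq_nonneg (y 0 * v 1 - y 1 * v 0), sq_nonneg (y 0 * v 3 - y 3 * v 0),
      sq_nonneg (y 0 * v 4 - y 4 * v 0), sq_nonneg (y 1 * v 3 - y 3 * v 1),
      sq_nonneg (y 1 * v 4 - y 4 * v 1), sq_nonneg (y 3 * v 4 - y 4 * v 3)]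
  have hv' : X + v 2 ^ 2 = 1 := by
    rw [hX]
    nlinarith
  have hS0 : 0 ≤ S := by rw [hSd]; positivity
  have e2 : (t ^ 2 / 32 + 6 * M ^ 2) * X + 24 * M * p ^ 2 + t / 8 * p * v 2 +
      (1 + S / 32) * v 2 ^ 2 = 7 / 8 * (v 2 + t * p / 14) ^ 2 + (1 / 8 + S / 32) * v 2 ^ 2 +
        t ^ 2 / 224 * (7 * X - p ^ 2) + 6 * M ^ 2 * X + 24 * M * p ^ 2 := by
    ring
  rw [e2]
  have h5 : (7 - S) * X ≤ 7 * X - p ^ 2 := by nlinarith
  have h6 : t ^ 2 / 224 * ((7 - S) * X) ≤ t ^ 2 / 224 * (7 * X - p ^ 2) :=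
    mul_le_mul_of_nonneg_left h5 (by positivity)
  have h7 : 0 ≤ 7 / 8 * (v 2 + t * p / 14) ^ 2 := by positivity
  have h8 : 0 ≤ 6 * M ^ 2 * X + 24 * M * p ^ 2 := by positivity
  have h9 : 0 ≤ t ^ 2 / 224 * ((7 - S) * X) :=
    mul_nonneg (by positivity) (mul_nonneg (by linarith) hX0)
  rcases eq_or_lt_of_le hX0 with h | h
  · have h10 : v 2 ^ 2 = 1 := by linarith
    rw [h10]
    nlinarith
  · have h10 : 0 < t ^ 2 / 224 * ((7 - S) * X) :=
      mul_pos (by positivity) (mul_pos (by linarith) h)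
    have h11 : 0 ≤ (1 / 8 + S / 32) * v 2 ^ 2 := by positivity
    linarith

theorem isOpen_D0 : IsOpen D0 :=
  isOpen_lt c3_F0_contDiff.continuous continuous_const

theorem isBounded_D0 : Bornology.IsBounded D0 := by
  rw [isBounded_iff_forall_norm_le]
  refine ⟨√11, fun y hy => ?_⟩
  obtain ⟨h1, h2, h3⟩ := c3_mem hy
  rw [EuclideanSpace.norm_eq, Fin.sum_univ_five]
  refine Real.sqrt_le_sqrt ?_
  simp only [Real.norm_eq_abs, sq_abs]
  unfold c3S at h3
  nlinarith

theorem isPointwiseConvex_D0 : IsPointwiseConvex 5 3 D0 := by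
  refine ⟨F0, c3_F0_contDiff.contMDiff, fun x hx => hx, ?_, ?_⟩
  · intro x hx
    rw [isOpen_D0.frontier_eq] at hx
    have h1 : F0 x ≤ 0 := by
      have hc : IsClosed {y : E 5 | F0 y ≤ 0} :=
        isClosed_le c3_F0_contDiff.continuous continuous_const
      have : closure D0 ⊆ {y : E 5 | F0 y ≤ 0} := closure_minimal (fun y (hy : F0 y < 0) => hy.le) hc
      exact this hx.1
    have h2 : ¬ F0 x < 0 := hx.2
    linarith
  · intro q y _ hy v hv
    have e1 : F0 ∘ (chartAt (E 5) q).symm = F0 := by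
      rw [chartAt_self_eq]
      rfl
    have e2 : (chartAt (E 5) q).symm y = y := by
      rw [chartAt_self_eq]
      rfl
    rw [e2] at hy
    rw [metricN_E] at hv ⊢
    rw [e1]
    change IsOrthoFamily (1 : Matrix (Fin 5) (Fin 5) ℝ) v at hv
    refine Finset.sum_pos (fun k _ => ?_) Finset.univ_nonempty
    rw [hess_const]
    have h1 := hv k k
    rw [if_pos rfl] at h1
    have h2 : ∑ a, v k a * v k a = 1 := by
      rw [← h1]
      refine Finset.sum_congr rfl fun a _ => ?_
      rw [Finset.sum_eq_single a]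
      · simp
      · intro b _ hb
        rw [Matrix.one_apply_ne (Ne.symm hb)]
        simp
      · simp
    have h3 : ∀ a b, pd a (pd b F0) y = c3H a b y := fun a b => by
      rw [c3_pd, c3_pd2]
    simp only [h3]
    exact c3_pos hy h2

theorem phi0_mem_D0 (p : Mset) : phi0 p ∈ D0 := by
  obtain ⟨h1, h2, h3, h4, h5⟩ := p.2
  change F0 (Phi p) < 0
  set x : E 3 := (p : E 3) with hx
  have hlog : Real.log 2 < 1 := by
    have := Real.log_two_lt_d9
    linarith
  have e0 : Phi x 0 = Real.exp (x 0) * Real.cos (x 1) := rfl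
  have e1 : Phi x 1 = Real.exp (x 0) * Real.sin (x 1) := rfl
  have e2 : Phi x 2 = Real.exp (-x 1) * Real.cos (x 0) := rfl
  have e3 : Phi x 3 = Real.exp (-x 1) * Real.sin (x 0) := rfl
  have e4 : Phi x 4 = x 2 := rfl
  have hS : c3S (Phi x) < 6 := by
    unfold c3S
    rw [e0, e1, e3, e4]
    have a1 : (Real.exp (x 0) * Real.cos (x 1)) ^ 2 + (Real.exp (x 0) * Real.sin (x 1)) ^ 2 =
        Real.exp (x 0) ^ 2 := by
      have := Real.sin_sq_add_cos_sq (x 1)
      calc _ = Real.exp (x 0) ^ 2 * (Real.sin (x 1) ^ 2 + Real.cos (x 1) ^ 2) := by ring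
        _ = _ := by rw [this, mul_one]
    have a2 : Real.exp (x 0) < 2 := by
      have := Real.exp_lt_exp.2 h2
      rwa [Real.exp_log (by norm_num)] at this
    have a3 : 0 < Real.exp (x 0) := Real.exp_pos _
    have a4 : Real.exp (-x 1) < 1 := Real.exp_lt_one_iff.2 (by linarith)
    have a5 : 0 < Real.exp (-x 1) := Real.exp_pos _
    have a6 : (Real.exp (-x 1) * Real.sin (x 0)) ^ 2 ≤ 1 := by
      rw [mul_pow]
      have b1 : Real.exp (-x 1) ^ 2 ≤ 1 := by nlinarith
      have b2 : Real.sin (x 0) ^ 2 ≤ 1 := Real.sin_sq_le_one _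
      nlinarith [sq_nonneg (Real.sin (x 0)), sq_nonneg (Real.exp (-x 1))]
    have a7 : x 2 ^ 2 < 1 := by nlinarith
    nlinarith
  have hc : 0 < Real.cos (x 0) := by
    refine Real.cos_pos_of_mem_Ioo ⟨by have := Real.pi_pos; linarith, ?_⟩
    have := Real.pi_gt_three
    linarith
  have ht0 : 0 < Phi x 2 := by
    rw [e2]
    exact mul_pos (Real.exp_pos _) hc
  have ht1 : Phi x 2 < 1 := by
    rw [e2]
    have a4 : Real.exp (-x 1) < 1 := Real.exp_lt_one_iff.2 (by linarith)
    have := Real.cos_le_one (x 0)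
    nlinarith [Real.exp_pos (-x 1)]
  rw [c3_F0_eq, max_eq_right (by linarith)]
  have hS0 : 0 ≤ c3S (Phi x) := by unfold c3S; positivity
  have h6 : (1 + c3S (Phi x) / 32) * Phi x 2 ^ 2 / 2 < Phi x 2 := by
    have b1 : Phi x 2 ^ 2 ≤ Phi x 2 := by nlinarith
    have b2 : 1 + c3S (Phi x) / 32 < 19 / 16 := by linarith
    have b3 : (1 + c3S (Phi x) / 32) * Phi x 2 ^ 2 ≤ 19 / 16 * Phi x 2 :=
      mul_le_mul b2.le b1 (by positivity) (by norm_num)
    linarith
  simp only [ne_eq, OfNat.ofNat_ne_zero, not_false_eq_true, zero_pow]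
  linarith

end Pool.Agent.helper43.MS
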