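import Pool.Agent.helper43.MS.Defs

/-!
# Module C4: the limit set of the example is a null set inside the domain
-/

open Bundle Manifold MeasureTheory Set Filter Topology
open scoped ContDiff ENNReal

namespace Pool.Agent.helper43.MS

private theorem c4_Phi_contDiff : ContDiff ℝ ∞ Phi := by
  unfold Phi
  rw [contDiff_euclidean]
  intro i
  fin_cases i <;> simp <;> fun_prop

/-- the three families of planes -/
private noncomputable def c4_ins0 (c : ℝ) (x : E 2) : E 3 := !₂[c, x 0, x 1]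
private noncomputable def c4_ins1 (c : ℝ) (x : E 2) : E 3 := !₂[x 0, c, x 1]
private noncomputable def c4_ins2 (c : ℝ) (x : E 2) : E 3 := !₂[x 0, x 1, c]

private theorem c4_ins0_contDiff (c : ℝ) : ContDiff ℝ ∞ (c4_ins0 c) := by
  unfold c4_ins0
  rw [contDiff_euclidean]
  intro i
  fin_cases i <;> simp <;> fun_prop

private theorem c4_ins1_contDiff (c : ℝ) : ContDiff ℝ ∞ (c4_ins1 c) := by
  unfold c4_ins1
  rw [contDiff_euclidean]
  intro i
  fin_cases i <;> simp <;> fun_prop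

private theorem c4_ins2_contDiff (c : ℝ) : ContDiff ℝ ∞ (c4_ins2 c) := by
  unfold c4_ins2
  rw [contDiff_euclidean]
  intro i
  fin_cases i <;> simp <;> fun_prop

private theorem c4_null {f : E 2 → E 3} (hf : ContDiff ℝ ∞ f) :
    μH[(3 : ℝ)] (range (Phi ∘ f)) = 0 := by
  have h1 : ContDiff ℝ 1 (Phi ∘ f) := (c4_Phi_contDiff.comp hf).of_le (by simp)
  have h2 := h1.dimH_range_le
  have h3 : dimH (range (Phi ∘ f)) < ((3 : NNReal) : ℝ≥0∞) := by
    refine lt_of_le_of_lt h2 ?_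
    rw [finrank_euclideanSpace_fin]
    norm_num
  have := hausdorffMeasure_of_dimH_lt h3
  simpa using this

private theorem c4_pos {y : E 5} (hy : y ∈ D0) : 0 < y 2 := by
  have h1 : F0 y < 0 := hy
  unfold F0 at h1
  have h2 : 0 ≤ (1 + (y 0 ^ 2 + y 1 ^ 2 + y 3 ^ 2 + y 4 ^ 2) / 32) * y 2 ^ 2 / 2 := by positivity
  have h3 : 0 ≤ (max (y 0 ^ 2 + y 1 ^ 2 + y 3 ^ 2 + y 4 ^ 2 - 6) 0) ^ 3 :=
    pow_nonneg (le_max_right _ _) _
  linarith

private theorem c4_compact (T : ℝ) : IsCompact {x : E 3 | (0 ≤ x 0 ∧ x 0 ≤ Real.log 2) ∧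
    (0 ≤ x 1 ∧ x 1 ≤ T) ∧ (-1 ≤ x 2 ∧ x 2 ≤ 1)} := by
  have h := (EuclideanSpace.equiv (Fin 3) ℝ).toHomeomorph.isCompact_preimage.2
    (isCompact_Icc (a := ![(0 : ℝ), 0, -1]) (b := ![Real.log 2, T, 1]))
  convert h using 1
  ext x
  simp only [mem_ofPred_eq, mem_preimage, mem_Icc, Pi.le_def, Fin.forall_fin_succ,
    ContinuousLinearEquiv.coe_toHomeomorph, EuclideanSpace.equiv, PiLp.coe_continuousLinearEquiv]
  simp
  tauto

private theorem c4_limit {y : E 5} (hy : y ∈ limitSet phi0) (hy2 : 0 < y 2) :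
    ∃ z : E 3, Phi z = y ∧ (z 0 = 0 ∨ z 0 = Real.log 2 ∨ z 1 = 0 ∨ z 2 = -1 ∨ z 2 = 1) := by
  obtain ⟨p, hp, hpy⟩ := hy
  have hc2 : Tendsto (fun k => phi0 (p k) 2) atTop (𝓝 (y 2)) :=
    ((by fun_prop : Continuous fun x : E 5 => x 2).tendsto y).comp hpy
  have hev : ∀ᶠ k in atTop, y 2 / 2 < phi0 (p k) 2 := hc2.eventually (lt_mem_nhds (by linarith))
  have hev2 : ∀ᶠ k in atTop, ((p k : Mset) : E 3) ∈ {x : E 3 | (0 ≤ x 0 ∧ x 0 ≤ Real.log 2) ∧
      (0 ≤ x 1 ∧ x 1 ≤ Real.log (2 / y 2)) ∧ (-1 ≤ x 2 ∧ x 2 ≤ 1)} := by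
    filter_upwards [hev] with k hk
    obtain ⟨h1, h2, h3, h4, h5⟩ := (p k).2
    refine ⟨⟨h1.le, h2.le⟩, ⟨h3.le, ?_⟩, h4.le, h5.le⟩
    have h6 : phi0 (p k) 2 = Real.exp (-((p k : E 3) 1)) * Real.cos ((p k : E 3) 0) := rfl
    have h7 : y 2 / 2 < Real.exp (-((p k : E 3) 1)) := by
      refine lt_of_lt_of_le hk ?_
      rw [h6]
      exact mul_le_of_le_one_right (Real.exp_pos _).le (Real.cos_le_one _)
    have h8 : Real.log (y 2 / 2) ≤ -((p k : E 3) 1) :=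
      (Real.log_le_iff_le_exp (by linarith)).2 h7.le
    have h9 : Real.log (2 / y 2) = - Real.log (y 2 / 2) := by
      rw [← Real.log_inv, inv_div]
    rw [h9]
    linarith
  obtain ⟨z, hz, φ, hφ, hφz⟩ := (c4_compact (Real.log (2 / y 2))).tendsto_subseq' hev2.frequently
  refine ⟨z, ?_, ?_⟩
  · have h1 : Tendsto (fun k => Phi ((p (φ k) : Mset) : E 3)) atTop (𝓝 (Phi z)) :=
      (c4_Phi_contDiff.continuous.tendsto z).comp hφz
    exact tendsto_nhds_unique h1 (hpy.comp hφ.tendsto_atTop)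
  · by_contra hcon
    push Not at hcon
    obtain ⟨h1, h2, h3, h4, h5⟩ := hcon
    have hzM : z ∈ Mset := by
      obtain ⟨⟨a1, a2⟩, ⟨a3, a4⟩, a5, a6⟩ := hz
      exact ⟨lt_of_le_of_ne a1 (Ne.symm h1), lt_of_le_of_ne a2 h2, lt_of_le_of_ne a3 (Ne.symm h3),
        lt_of_le_of_ne a5 (Ne.symm h4), lt_of_le_of_ne a6 h5⟩
    have hlim : Tendsto (p ∘ φ) atTop (𝓝 (⟨z, hzM⟩ : Mset)) := by
      rw [tendsto_subtype_rng]
      exact hφz
    have hK := hlim.isCompact_insert_range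
    have h6 : ∀ᶠ k in atTop, p k ∈ (insert (⟨z, hzM⟩ : Mset) (range (p ∘ φ)))ᶜ :=
      hp.eventually (hK.compl_mem_cocompact)
    obtain ⟨k, hk⟩ := (hφ.tendsto_atTop.eventually h6).exists
    exact hk (Or.inr ⟨k, rfl⟩)

theorem limitSet_phi0_null : μH[(3 : ℝ)] (limitSet phi0 ∩ D0) = 0 := by
  have hsub : limitSet phi0 ∩ D0 ⊆ range (Phi ∘ c4_ins0 0) ∪ range (Phi ∘ c4_ins0 (Real.log 2)) ∪
      range (Phi ∘ c4_ins1 0) ∪ range (Phi ∘ c4_ins2 (-1)) ∪ range (Phi ∘ c4_ins2 1) := by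
    rintro y ⟨hy1, hy⟩
    obtain ⟨z, rfl, hz⟩ := c4_limit hy1 (c4_pos hy)
    have e0 : ∀ a b c : ℝ, z 0 = a → z 1 = b → z 2 = c → z = !₂[a, b, c] := by
      intro a b c h1 h2 h3
      ext i
      fin_cases i <;> simp [h1, h2, h3]
    rcases hz with h | h | h | h | h
    · refine Or.inl (Or.inl (Or.inl (Or.inl ⟨!₂[z 1, z 2], ?_⟩)))
      simp only [Function.comp, c4_ins0]
      exact congrArg Phi (e0 _ _ _ h rfl rfl).symm
    · refine Or.inl (Or.inl (Or.inl (Or.inr ⟨!₂[z 1, z 2], ?_⟩)))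
      simp only [Function.comp, c4_ins0]
      exact congrArg Phi (e0 _ _ _ h rfl rfl).symm
    · refine Or.inl (Or.inl (Or.inr ⟨!₂[z 0, z 2], ?_⟩))
      simp only [Function.comp, c4_ins1]
      exact congrArg Phi (e0 _ _ _ rfl h rfl).symm
    · refine Or.inl (Or.inr ⟨!₂[z 0, z 1], ?_⟩)
      simp only [Function.comp, c4_ins2]
      exact congrArg Phi (e0 _ _ _ rfl rfl h).symm
    · refine Or.inr ⟨!₂[z 0, z 1], ?_⟩
      simp only [Function.comp, c4_ins2]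
      exact congrArg Phi (e0 _ _ _ rfl rfl h).symm
  refine measure_mono_null hsub ?_
  simp only [measure_union_null_iff]
  exact ⟨⟨⟨⟨c4_null (c4_ins0_contDiff _), c4_null (c4_ins0_contDiff _)⟩,
    c4_null (c4_ins1_contDiff _)⟩, c4_null (c4_ins2_contDiff _)⟩, c4_null (c4_ins2_contDiff _)⟩

end Pool.Agent.helper43.MS
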