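import Pool.Agent.helper68.MS.C1
import Pool.Agent.helper61.MS.C3

/-!
# Module C2: the immersion of the example is minimal
-/

open Bundle Manifold MeasureTheory Set Filter Topology
open scoped ContDiff ENNReal

namespace Pool.Agent.helper43.MS

private theorem c2_symm (p : Mset) {x : E 3} (hx : x ∈ Mset) :
    (((chartAt (E 3) p).symm x : Mset) : E 3) = x := by
  have hx' : x ∈ (chartAt (E 3) p).target := by rw [target_Mset]; exact hx
  exact (chartAt (E 3) p).right_inv hx'

private theorem c2_locRep (p : Mset) (q : E 5) {x : E 3} (hx : x ∈ Mset) :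
    locRep 3 5 phi0 p q x = Phi x := by
  unfold locRep phi0
  rw [chartAt_self_eq, c2_symm p hx]
  rfl

private theorem c2_pd_congr {k : ℕ} {f g : E k → ℝ} {x : E k} (h : f =ᶠ[𝓝 x] g) (i : Fin k) :
    pd i f x = pd i g x := by
  unfold pd
  rw [h.fderiv_eq]

private noncomputable def c2l (x : E 3) : ℝ := Real.exp (2 * x 0) + Real.exp (-(2 * x 1))

private theorem c2_l_pos (x : E 3) : 0 < c2l x := by unfold c2l; positivity

private theorem c2_det (l : ℝ) (hl : 0 < l) :
    √((Matrix.diagonal ![l, l, 1] : Matrix (Fin 3) (Fin 3) ℝ).det) = l := by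
  rw [Matrix.det_diagonal, Fin.prod_univ_three]
  simp only [Matrix.cons_val_zero, Matrix.cons_val_one, Matrix.cons_val]
  rw [mul_one, Real.sqrt_mul_self hl.le]

private theorem c2_inv (l : ℝ) (hl : 0 < l) :
    (Matrix.diagonal ![l, l, 1] : Matrix (Fin 3) (Fin 3) ℝ)⁻¹ = Matrix.diagonal ![l⁻¹, l⁻¹, 1] := by
  refine Matrix.inv_eq_right_inv ?_
  rw [Matrix.diagonal_mul_diagonal, ← Matrix.diagonal_one]
  congr 1
  funext i
  fin_cases i <;> simp [hl.ne']

private theorem c2_nhds {x : E 3} (hx : x ∈ Mset) : ∀ᶠ z in 𝓝 x, z ∈ Mset :=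
  Mset.isOpen.mem_nhds hx

/-- the Laplacian for the metric of the example -/
private theorem c2_laplace (p : Mset) {x : E 3} (hx : x ∈ Mset) (f g : E 3 → ℝ)
    (hfg : ∀ z ∈ Mset, f z = g z) :
    laplace (metricM 3 5 phi0 p) f x = (1 / c2l x) * (pd 0 (pd 0 g) x + pd 1 (pd 1 g) x +
      pd 2 (fun z => c2l z * pd 2 g z) x) := by
  have hpd : ∀ z ∈ Mset, ∀ j, pd j f z = pd j g z := fun z hz j =>
    c2_pd_congr ((c2_nhds hz).mono fun y hy => hfg y hy) j
  have hdet : ∀ z ∈ Mset, √((metricM 3 5 phi0 p z).det) = c2l z := fun z hz => by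
    rw [metricM_phi0 p hz]
    exact c2_det _ (c2_l_pos z)
  have hinv : ∀ z ∈ Mset, (metricM 3 5 phi0 p z)⁻¹ =
      Matrix.diagonal ![(c2l z)⁻¹, (c2l z)⁻¹, 1] := fun z hz => by
    rw [metricM_phi0 p hz]
    exact c2_inv _ (c2_l_pos z)
  unfold laplace
  rw [hdet x hx, Fin.sum_univ_three]
  congr 1
  have h0 : pd 0 (fun z => √((metricM 3 5 phi0 p z).det) *
      ∑ j, (metricM 3 5 phi0 p z)⁻¹ 0 j * pd j f z) x = pd 0 (pd 0 g) x := by
    refine c2_pd_congr ((c2_nhds hx).mono fun z hz => ?_) 0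
    simp only [hdet z hz, hinv z hz, hpd z hz, Fin.sum_univ_three]
    have := (c2_l_pos z).ne'
    simp
    field_simp
  have h1 : pd 1 (fun z => √((metricM 3 5 phi0 p z).det) *
      ∑ j, (metricM 3 5 phi0 p z)⁻¹ 1 j * pd j f z) x = pd 1 (pd 1 g) x := by
    refine c2_pd_congr ((c2_nhds hx).mono fun z hz => ?_) 1
    simp only [hdet z hz, hinv z hz, hpd z hz, Fin.sum_univ_three]
    have := (c2_l_pos z).ne'
    simp
    field_simp
  have h2 : pd 2 (fun z => √((metricM 3 5 phi0 p z).det) *
      ∑ j, (metricM 3 5 phi0 p z)⁻¹ 2 j * pd j f z) x = pd 2 (fun z => c2l z * pd 2 g z) x := by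
    refine c2_pd_congr ((c2_nhds hx).mono fun z hz => ?_) 2
    simp only [hdet z hz, hinv z hz, hpd z hz, Fin.sum_univ_three]
    simp
  rw [h0, h1, h2]

private theorem c2_line (y : E 3) (t : ℝ) (i b : Fin 3) :
    (y + t • bv b) i = y i + if i = b then t else 0 := by
  simp [bv]

private theorem c2_hline (y : E 3) (i j : Fin 3) :
    HasDerivAt (fun t : ℝ => (y + t • bv i : E 3) j) (if j = i then 1 else 0) 0 := by
  simp only [c2_line]
  by_cases h : j = i
  · simp only [if_pos h]
    exact (hasDerivAt_id (0 : ℝ)).const_add (y j)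
  · simp only [if_neg h]
    exact hasDerivAt_const _ _

private theorem c2_at0 (y : E 3) (i j : Fin 3) : (y + (0 : ℝ) • bv i : E 3) j = y j := by
  simp

private theorem c2_hd {f g : ℝ → ℝ} {a b x : ℝ} (h : HasDerivAt f a x) (hfg : f = g)
    (hab : a = b) : HasDerivAt g b x := by
  subst hfg hab
  exact h

private theorem c2_pd_ec (i : Fin 3) (σ : ℝ) (j k : Fin 3) :
    pd i (fun z : E 3 => Real.exp (σ * z j) * Real.cos (z k)) = fun z =>
      (if j = i then σ else 0) * (Real.exp (σ * z j) * Real.cos (z k)) +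
      (if k = i then -1 else 0) * (Real.exp (σ * z j) * Real.sin (z k)) := by
  funext z
  refine pd_eq_of_hasDerivAt (by fun_prop) i ?_
  have h1 := ((c2_hline z i j).const_mul σ).exp.mul (c2_hline z i k).cos
  simp only [c2_at0] at h1
  refine c2_hd h1 (by funext t; rfl) ?_
  split_ifs <;> ring

private theorem c2_pd_es (i : Fin 3) (σ : ℝ) (j k : Fin 3) :
    pd i (fun z : E 3 => Real.exp (σ * z j) * Real.sin (z k)) = fun z =>
      (if j = i then σ else 0) * (Real.exp (σ * z j) * Real.sin (z k)) +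
      (if k = i then 1 else 0) * (Real.exp (σ * z j) * Real.cos (z k)) := by
  funext z
  refine pd_eq_of_hasDerivAt (by fun_prop) i ?_
  have h1 := ((c2_hline z i j).const_mul σ).exp.mul (c2_hline z i k).sin
  simp only [c2_at0] at h1
  refine c2_hd h1 (by funext t; rfl) ?_
  split_ifs <;> ring

private theorem c2_pd_lin (i : Fin 3) (f g : E 3 → ℝ) (a b : ℝ) (hf : Differentiable ℝ f)
    (hg : Differentiable ℝ g) :
    pd i (fun z => a * f z + b * g z) = fun z => a * pd i f z + b * pd i g z := by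
  funext z
  unfold pd
  have h : HasFDerivAt (fun z => a * f z + b * g z) (a • fderiv ℝ f z + b • fderiv ℝ g z) z :=
    ((hf z).hasFDerivAt.const_mul a).add ((hg z).hasFDerivAt.const_mul b)
  rw [h.fderiv]
  simp

private theorem c2_ec (σ : ℝ) (hσ : σ * σ = 1) (j k : Fin 3) (hjk : j ≠ k) (x : E 3) :
    pd j (pd j (fun z : E 3 => Real.exp (σ * z j) * Real.cos (z k))) x +
    pd k (pd k (fun z : E 3 => Real.exp (σ * z j) * Real.cos (z k))) x = 0 := by
  simp only [c2_pd_ec, if_true, if_neg hjk, if_neg (Ne.symm hjk)]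
  rw [c2_pd_lin j _ _ _ _ (by fun_prop) (by fun_prop),
    c2_pd_lin k _ _ _ _ (by fun_prop) (by fun_prop)]
  simp only [c2_pd_ec, c2_pd_es, if_true, if_neg hjk, if_neg (Ne.symm hjk)]
  linear_combination (Real.exp (σ * x j) * Real.cos (x k)) * hσ

private theorem c2_es (σ : ℝ) (hσ : σ * σ = 1) (j k : Fin 3) (hjk : j ≠ k) (x : E 3) :
    pd j (pd j (fun z : E 3 => Real.exp (σ * z j) * Real.sin (z k))) x +
    pd k (pd k (fun z : E 3 => Real.exp (σ * z j) * Real.sin (z k))) x = 0 := by
  simp only [c2_pd_es, if_true, if_neg hjk, if_neg (Ne.symm hjk)]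
  rw [c2_pd_lin j _ _ _ _ (by fun_prop) (by fun_prop),
    c2_pd_lin k _ _ _ _ (by fun_prop) (by fun_prop)]
  simp only [c2_pd_ec, c2_pd_es, if_true, if_neg hjk, if_neg (Ne.symm hjk)]
  linear_combination (Real.exp (σ * x j) * Real.sin (x k)) * hσ

private theorem c2_pd_proj (i j : Fin 3) :
    pd i (fun z : E 3 => z j) = fun _ => if j = i then 1 else 0 := by
  funext z
  exact pd_eq_of_hasDerivAt (by fun_prop) i (c2_hline z i j)

theorem isMinimal_phi0 : IsMinimal 3 5 phi0 := by
  intro p q x hx hq a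
  have hx' : x ∈ Mset := by rw [target_Mset] at hx; exact hx
  unfold tension
  have h2 : ∑ b, ∑ c, christoffel (metricN q) (locRep 3 5 phi0 p q x) a b c *
      ∑ i, ∑ j, (metricM 3 5 phi0 p x)⁻¹ i j *
        pd i (fun z => locRep 3 5 phi0 p q z b) x * pd j (fun z => locRep 3 5 phi0 p q z c) x = 0 := by
    refine Finset.sum_eq_zero fun b _ => Finset.sum_eq_zero fun c _ => ?_
    rw [metricN_E, christoffel_const, zero_mul]
  rw [h2, add_zero, c2_laplace p hx' _ (fun z => Phi z a) (fun z hz => by rw [c2_locRep p q hz])]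
  have h3 : pd 0 (pd 0 (fun z => Phi z a)) x + pd 1 (pd 1 (fun z => Phi z a)) x +
      pd 2 (fun z => c2l z * pd 2 (fun z => Phi z a) z) x = 0 := by
    fin_cases a
    · have e : (fun z : E 3 => Phi z (⟨0, by norm_num⟩ : Fin 5)) =
          fun z => Real.exp (1 * z 0) * Real.cos (z 1) := by
        funext z
        rw [one_mul]
        rfl
      simp only [e]
      rw [c2_ec 1 (by norm_num) 0 1 (by decide) x, c2_pd_ec]
      simp [pd_const]
    · have e : (fun z : E 3 => Phi z (⟨1, by norm_num⟩ : Fin 5)) =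
          fun z => Real.exp (1 * z 0) * Real.sin (z 1) := by
        funext z
        rw [one_mul]
        rfl
      simp only [e]
      rw [c2_es 1 (by norm_num) 0 1 (by decide) x, c2_pd_es]
      simp [pd_const]
    · have e : (fun z : E 3 => Phi z (⟨2, by norm_num⟩ : Fin 5)) =
          fun z => Real.exp ((-1) * z 1) * Real.cos (z 0) := by
        funext z
        rw [neg_one_mul]
        rfl
      simp only [e]
      rw [add_comm (pd 0 _ x), c2_ec (-1) (by norm_num) 1 0 (by decide) x, c2_pd_ec]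
      simp [pd_const]
    · have e : (fun z : E 3 => Phi z (⟨3, by norm_num⟩ : Fin 5)) =
          fun z => Real.exp ((-1) * z 1) * Real.sin (z 0) := by
        funext z
        rw [neg_one_mul]
        rfl
      simp only [e]
      rw [add_comm (pd 0 _ x), c2_es (-1) (by norm_num) 1 0 (by decide) x, c2_pd_es]
      simp [pd_const]
    · have e : (fun z : E 3 => Phi z (⟨4, by norm_num⟩ : Fin 5)) = fun z => z 2 := by
        funext z
        rfl
      simp only [e, c2_pd_proj]
      simp only [pd_const, if_true, mul_one]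
      rw [zero_add, zero_add]
      change pd 2 (fun z : E 3 => Real.exp (2 * z 0) + Real.exp (-(2 * z 1))) x = 0
      refine pd_eq_of_hasDerivAt (by fun_prop) 2 ?_
      have h := (((c2_hline x 2 0).const_mul 2).exp).add ((((c2_hline x 2 1).const_mul 2).neg).exp)
      exact c2_hd h (by funext t; simp) (by simp)
  rw [h3, mul_zero]

end Pool.Agent.helper43.MS
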